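import Mathlib
import Pool.Agent.Lib_helper90.Final

/-!
# Vectors with an absolutely continuous spectral measure for the limit-periodic operator `HH`
-/

set_option autoImplicit false
open MeasureTheory Filter Topology

namespace Pool.Agent.LP

variable {F : Type*} [NormedAddCommGroup F] [InnerProductSpace ℂ F] [CompleteSpace F]

/-- Continuous functions which decrease to the indicator function of a closed set. -/
noncomputable def bump (S : Set ℝ) (n : ℕ) (x : ℝ) : ℝ := max 0 (1 - n * Metric.infDist x S)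

theorem continuous_bump (S : Set ℝ) (n : ℕ) : Continuous (bump S n) := by
  unfold bump
  have h1 : Continuous fun x : ℝ => Metric.infDist x S := Metric.continuous_infDist_pt S
  fun_prop

theorem bump_nonneg (S : Set ℝ) (n : ℕ) (x : ℝ) : 0 ≤ bump S n x := le_max_left _ _

theorem bump_le_one (S : Set ℝ) (n : ℕ) (x : ℝ) : bump S n x ≤ 1 := by
  unfold bump
  have h1 : 0 ≤ Metric.infDist x S := Metric.infDist_nonneg
  have h2 : 0 ≤ (n : ℝ) * Metric.infDist x S := by positivity
  exact max_le zero_le_one (by linarith)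

theorem bump_anti (S : Set ℝ) {n m : ℕ} (h : n ≤ m) (x : ℝ) : bump S m x ≤ bump S n x := by
  unfold bump
  have h1 : 0 ≤ Metric.infDist x S := Metric.infDist_nonneg
  have h2 : (n : ℝ) ≤ m := by exact_mod_cast h
  have h3 : (n : ℝ) * Metric.infDist x S ≤ m * Metric.infDist x S := by gcongr
  exact max_le_max le_rfl (by linarith)

theorem bump_of_mem {S : Set ℝ} (n : ℕ) {x : ℝ} (h : x ∈ S) : bump S n x = 1 := by
  unfold bump
  rw [Metric.infDist_zero_of_mem h, mul_zero, sub_zero]
  exact max_eq_right zero_le_one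

theorem ind_le_bump (S : Set ℝ) (n : ℕ) (x : ℝ) : S.indicator (fun _ => (1 : ℝ)) x ≤ bump S n x := by
  by_cases h : x ∈ S
  · rw [Set.indicator_of_mem h, bump_of_mem n h]
  · rw [Set.indicator_of_notMem h]
    exact bump_nonneg _ _ _

theorem tendsto_bump {S : Set ℝ} (hS : IsClosed S) (hne : S.Nonempty) (x : ℝ) :
    Tendsto (fun n => bump S n x) atTop (𝓝 (S.indicator (fun _ => (1 : ℝ)) x)) := by
  by_cases h : x ∈ S
  · rw [Set.indicator_of_mem h]
    simp only [bump_of_mem _ h]
    exact tendsto_const_nhds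
  · rw [Set.indicator_of_notMem h]
    have h1 : 0 < Metric.infDist x S := (hS.notMem_iff_infDist_pos hne).mp h
    obtain ⟨N, hN⟩ := exists_nat_gt (1 / Metric.infDist x S)
    refine tendsto_const_nhds.congr' ?_
    filter_upwards [eventually_ge_atTop N] with n hn
    unfold bump
    symm
    apply max_eq_left
    have h2 : (N : ℝ) ≤ n := by exact_mod_cast hn
    have h3 : 1 / Metric.infDist x S < n := lt_of_lt_of_le hN h2
    rw [div_lt_iff₀ h1] at h3
    linarith

/-- The restriction of a spectral measure to a closed set is a spectral measure. -/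
theorem exists_restrict (H : F →L[ℂ] F) (ψ : F) (μ : Measure ℝ)
    [IsFiniteMeasure μ] (hμ : IsSpec H ψ μ) (S : Set ℝ) (hS : IsClosed S) (hne : S.Nonempty) :
    ∃ φ : F, IsSpec H φ (μ.restrict S) := by
  classical
  let f : ℕ → ℝ → ℝ := bump S
  let g : ℝ → ℝ := S.indicator (fun _ => (1 : ℝ))
  have hgm : Measurable g := measurable_const.indicator hS.measurableSet
  have hg0 : ∀ x, 0 ≤ g x := fun x => Set.indicator_nonneg (fun _ _ => zero_le_one) x
  have hf0 : ∀ n x, 0 ≤ f n x := bump_nonneg S
  have hf1 : ∀ n x, f n x ≤ 1 := bump_le_one S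
  have hgf : ∀ n x, g x ≤ f n x := ind_le_bump S
  have hfg : ∀ x, Tendsto (fun n => f n x) atTop (𝓝 (g x)) := tendsto_bump hS hne
  have hfc : ∀ n, Continuous (f n) := continuous_bump S
  let u : ℕ → F := fun n => (fc H (f n)) ψ
  -- the errors
  let A : ℕ → ℝ := fun n => ∫ x, (f n x - g x) ^ 2 ∂μ
  have hb : ∀ n x, ‖(f n x - g x) ^ 2‖ ≤ 1 := by
    intro n x
    have h1 : 0 ≤ f n x - g x := by linarith [hgf n x]
    have h2 : f n x - g x ≤ 1 := by linarith [hf1 n x, hg0 x]
    rw [Real.norm_eq_abs, abs_of_nonneg (by positivity)]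
    exact pow_le_one₀ h1 h2
  have hAm : ∀ n, AEStronglyMeasurable (fun x => (f n x - g x) ^ 2) μ := fun n =>
    (((hfc n).measurable.sub hgm).pow_const 2).aestronglyMeasurable
  have hAi : ∀ n, Integrable (fun x => (f n x - g x) ^ 2) μ := fun n =>
    Integrable.of_bound (hAm n) 1 (Eventually.of_forall (hb n))
  have hA : Tendsto A atTop (𝓝 0) := by
    have h1 : Tendsto A atTop (𝓝 (∫ x, (0 : ℝ) ∂μ)) := by
      refine tendsto_integral_of_dominated_convergence (fun _ => 1) hAm (integrable_const _)
        (fun n => Eventually.of_forall (hb n)) (Eventually.of_forall fun x => ?_)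
      have h2 := ((hfg x).sub_const (g x)).pow 2
      rw [sub_self] at h2
      simpa using h2
    simpa using h1
  have hdist : ∀ n m, n ≤ m → dist (u n) (u m) ≤ Real.sqrt (A n) := by
    intro n m hnm
    rw [dist_eq_norm]
    apply Real.le_sqrt_of_sq_le
    have h1 : u n - u m = (fc H (fun x => f n x - 1 * f m x)) ψ := by
      rw [fc_sub_smul_apply ψ (f n) (f m) (hfc n) (hfc m) 1]
      simp [u]
    have h2 : Continuous fun x => f n x - 1 * f m x := by
      have := hfc n
      have := hfc m
      fun_prop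
    rw [h1, norm_sq_fc hμ _ h2]
    refine integral_mono_of_nonneg (Eventually.of_forall fun x => sq_nonneg _) (hAi n)
      (Eventually.of_forall fun x => ?_)
    have h3 := bump_anti S hnm x
    have h4 := hgf m x
    change (f n x - 1 * f m x) ^ 2 ≤ (f n x - g x) ^ 2
    have h5 : 0 ≤ f n x - 1 * f m x := by
      change 0 ≤ bump S n x - 1 * bump S m x
      linarith
    exact pow_le_pow_left₀ h5 (by linarith) 2
  have hcau : CauchySeq u := by
    refine cauchySeq_of_le_tendsto_0' (fun n => Real.sqrt (A n)) hdist ?_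
    have h1 := (Real.continuous_sqrt.tendsto 0).comp hA
    rw [Real.sqrt_zero] at h1
    exact h1
  obtain ⟨φ, hφ⟩ := cauchySeq_tendsto_of_complete hcau
  refine ⟨φ, fun h hh => ⟨(hμ h hh).1.restrict, ?_⟩⟩
  -- the values
  have h1 : ∀ n, RCLike.re (inner ℂ (u n) ((fc H h) (u n)) : ℂ) =
      ∫ x, f n x * (h x * f n x) ∂μ := by
    intro n
    rw [(hμ (fun x => f n x * (h x * f n x)) ((hfc n).mul (hh.mul (hfc n)))).2]
    have h2 : fc H (fun x => f n x * (h x * f n x)) = fc H (f n) * (fc H h * fc H (f n)) := by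
      unfold fc
      rw [cfc_mul (f n) (fun x => h x * f n x) H (hfc n).continuousOn
        (hh.mul (hfc n)).continuousOn, cfc_mul h (f n) H hh.continuousOn (hfc n).continuousOn]
    have h3 : IsSelfAdjoint (fc H (f n)) := cfc_predicate (f n) H
    have h4 := ContinuousLinearMap.adjoint_inner_right (fc H (f n)) ψ
      ((fc H h) ((fc H (f n)) ψ))
    rw [h3.adjoint_eq] at h4
    rw [h2]
    exact congrArg RCLike.re h4.symm
  have h2 : Tendsto (fun n => RCLike.re (inner ℂ (u n) ((fc H h) (u n)) : ℂ)) atTop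
      (𝓝 (RCLike.re (inner ℂ φ ((fc H h) φ) : ℂ))) := by
    have h3 : Tendsto (fun n => (fc H h) (u n)) atTop (𝓝 ((fc H h) φ)) :=
      ((fc H h).continuous.tendsto φ).comp hφ
    have h4 : Tendsto (fun n => (inner ℂ (u n) ((fc H h) (u n)) : ℂ)) atTop
        (𝓝 (inner ℂ φ ((fc H h) φ))) := hφ.inner h3
    exact (RCLike.continuous_re.tendsto _).comp h4
  have h3 : Tendsto (fun n => ∫ x, f n x * (h x * f n x) ∂μ) atTop
      (𝓝 (∫ x, S.indicator h x ∂μ)) := by
    refine tendsto_integral_of_dominated_convergence (fun x => ‖h x‖) (fun n => ?_)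
      (hμ h hh).1.norm (fun n => Eventually.of_forall fun x => ?_)
      (Eventually.of_forall fun x => ?_)
    · exact ((hfc n).mul (hh.mul (hfc n))).aestronglyMeasurable
    · rw [norm_mul, norm_mul, Real.norm_eq_abs (f n x), abs_of_nonneg (hf0 n x)]
      calc f n x * (‖h x‖ * f n x) ≤ 1 * (‖h x‖ * 1) := by
            have := hf1 n x
            have := hf0 n x
            gcongr
        _ = ‖h x‖ := by ring
    · have h4 : S.indicator h x = g x * (h x * g x) := by
        by_cases hx : x ∈ S
        · rw [Set.indicator_of_mem hx, show g x = 1 from Set.indicator_of_mem hx _]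
          ring
        · rw [Set.indicator_of_notMem hx, show g x = 0 from Set.indicator_of_notMem hx _]
          ring
      rw [h4]
      exact (hfg x).mul ((hfg x).const_mul _)
  have h4 : Tendsto (fun n => ∫ x, f n x * (h x * f n x) ∂μ) atTop
      (𝓝 (RCLike.re (inner ℂ φ ((fc H h) φ) : ℂ))) := h2.congr h1
  have h5 := tendsto_nhds_unique h3 h4
  rw [← h5, integral_indicator hS.measurableSet]

/-- A nonzero vector of `ℓ²(ℤ)` whose spectral measure is absolutely continuous. -/
theorem exists_ac : ∃ (φ : l2) (ν : Measure ℝ), φ ≠ 0 ∧ IsFiniteMeasure ν ∧ IsSpec HH φ ν ∧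
    ν ≪ volume := by
  classical
  have hH : IsSelfAdjoint HH := opH_isSelfAdjoint VV (2 * cs 0) VV_bound
  obtain ⟨μ, hfin, hμ⟩ := exists_spectral_measure HH hH delta0
  set K := ⋂ k, SS cN cl cs k with hK
  have hKcl : IsClosed K := isClosed_iInter (fun k => SS_closed _ _ _ k)
  have hKsub : K ⊆ Set.Icc 0 1 := (Set.iInter_subset _ 0).trans (SS_sub_Icc _ _ _ 0)
  have hbdd : ∀ E ∈ K, BddSol (fun n : ℕ => E - VV n) 8 := by
    intro E hE
    exact c_scales.bddSol c_P2 E (fun k => Set.mem_iInter.mp hE k)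
  have hcs0 := cs_pos 0
  -- the absolutely continuous part
  obtain ⟨N, hNm, hN1, hN2⟩ := Measure.mutuallySingular_singularPart μ volume
  have hac : μ.restrict N ≪ volume := by
    intro s hs
    have hsm : μ.restrict N s = μ.restrict N s := rfl
    obtain ⟨t, hst, htm, ht⟩ := exists_measurable_superset_of_null hs
    refine measure_mono_null hst ?_
    rw [Measure.restrict_apply htm]
    rw [Measure.haveLebesgueDecomposition_add μ volume, Measure.add_apply, add_eq_zero]
    constructor
    · exact measure_mono_null Set.inter_subset_right hN1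
    · exact withDensity_absolutelyContinuous _ _ (measure_mono_null Set.inter_subset_left ht)
  have hKN : volume (K ∩ N) ≠ 0 := by
    intro h0
    apply c_vol_iInter
    have h1 : K ⊆ (K ∩ N) ∪ Nᶜ := by
      intro x hx
      by_cases hxN : x ∈ N
      · exact Or.inl ⟨hx, hxN⟩
      · exact Or.inr hxN
    exact measure_mono_null h1 (measure_union_null h0 hN2)
  obtain ⟨S, hSsub, hSc, hSpos⟩ :=
    (hKcl.measurableSet.inter hNm).exists_lt_isCompact (pos_iff_ne_zero.mpr hKN)
  have hSK : S ⊆ K := hSsub.trans Set.inter_subset_left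
  have hSN : S ⊆ N := hSsub.trans Set.inter_subset_right
  have hScl : IsClosed S := hSc.isClosed
  have hSne : S.Nonempty := by
    rw [Set.nonempty_iff_ne_empty]
    rintro rfl
    simp at hSpos
  have hSfin : volume S ≠ ⊤ :=
    ne_top_of_le_ne_top (by simp) (measure_mono (hSK.trans hKsub))
  -- S is charged
  have hSμ : μ S ≠ 0 := by
    apply mu_ne_zero_of_poisson μ S hScl hSfin hSpos.ne'
      ((8 * 8 + 4 * 8 * (2 * cs 0 + 1) + 1) ^ 2) (by positivity)
    intro E hE ε hε hε1
    have h1 := poisson_lower VV (2 * cs 0) VV_bound VV_even E 8 (by norm_num)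
      (hbdd E (hSK hE)) μ hμ ε hε hε1
    have hE1 : |E| ≤ 1 := by
      have := hKsub (hSK hE)
      rw [abs_le]
      constructor
      · linarith [this.1]
      · exact this.2
    refine le_trans h1 ?_
    have hnn : 0 ≤ ε * ∫ x, 1 / ((x - E) ^ 2 + ε ^ 2) ∂μ := by
      apply mul_nonneg hε.le
      apply integral_nonneg
      intro x
      positivity
    have h2 : (8 * 8 + 4 * 8 * (2 * cs 0 + |E|) + 1) ^ 2
        ≤ (8 * 8 + 4 * 8 * (2 * cs 0 + 1) + 1) ^ 2 := by gcongr
    exact mul_le_mul_of_nonneg_right h2 hnn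
  obtain ⟨φ, hφ⟩ := exists_restrict HH delta0 μ hμ S hScl hSne
  refine ⟨φ, μ.restrict S, ?_, inferInstance, hφ, ?_⟩
  · rintro rfl
    have h1 := (hφ (fun _ => 1) continuous_const).2
    rw [map_zero, inner_zero_right, map_zero, integral_const, smul_eq_mul, mul_one] at h1
    rw [measureReal_restrict_apply_univ] at h1
    apply hSμ
    rw [measureReal_eq_zero_iff] at h1
    exact h1
  · exact (Measure.restrict_mono_set μ hSN).absolutelyContinuous.trans hac

/-- A nonzero vector of `ℓ²(ℤ)` whose spectral measure is carried by a point. -/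
theorem exists_pp : ∃ (U : l2) (ν : Measure ℝ) (a : ℝ), U ≠ 0 ∧ IsFiniteMeasure ν ∧
    IsSpec HH U ν ∧ ν {a}ᶜ = 0 := by
  classical
  have hH : IsSelfAdjoint HH := opH_isSelfAdjoint VV (2 * cs 0) VV_bound
  obtain ⟨a, U, hU, hHU⟩ := exists_eigenvector
  obtain ⟨ν, hfin, hν⟩ := exists_spectral_measure HH hH U
  refine ⟨U, ν, a, hU, hfin, hν, ?_⟩
  have h1 : (fc HH (fun x => (x - a) * 1)) U = 0 := by
    have h2 := apply_fc hH U (fun _ => (1 : ℝ)) continuous_const a
    rw [← h2, fc_one_apply hH, hHU, sub_self]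
  have h2 := norm_sq_fc hν (fun x => (x - a) * 1) (by fun_prop)
  rw [h1, norm_zero] at h2
  have h3 : (fun x : ℝ => ((x - a) * 1) ^ 2) =ᵐ[ν] 0 := by
    refine (integral_eq_zero_iff_of_nonneg (fun x => sq_nonneg _)
      (hν (fun x => ((x - a) * 1) ^ 2) (by fun_prop)).1).mp ?_
    rw [← h2]
    norm_num
  have h4 : ∀ᵐ x ∂ν, x = a := by
    filter_upwards [h3] with x hx
    have h5 : ((x - a) * 1) ^ 2 = 0 := hx
    have h6 : (x - a) * 1 = 0 := by
      rwa [sq_eq_zero_iff] at h5
    linarith
  exact h4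

end Pool.Agent.LP
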